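import Pool.Agent.Lib_helper36.SJT.Final

set_option autoImplicit false

open Pool.Agent.LibHelper36.SJT

/-- Below a jump-traceable set `B`, the class `{A : A ≤_SJT B}` is closed under joins, for every
choice `J` of the universal partial computable functions `J^X` (such a `J` exists by
`exists_isUniversal`). -/
theorem Pool.Agent.Results.MP_9e86a2_lc.JoinsClosed.result
    (J : Set ℕ → ℕ →. ℕ) (hJ : IsUniversal J) (B : Set ℕ) (hB : JumpTraceable J B)
    (A₀ A₁ : Set ℕ) (h₀ : SJTle J A₀ B) (h₁ : SJTle J A₁ B) :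
    SJTle J (join A₀ A₁) B :=
  sjt_join hJ hB h₀ h₁
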